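import Pool.Agent.H521_col.Upper
import Pool.Agent.H521_col.Lower

/-!
MP_e806f7_co: the maximum number of proper `q`-colourings of a graph with `n` vertices and `m`
edges, for every `q ≥ 2` and every `m` above the number of edges of the Turán graph with `q - 1`
classes.
-/

set_option linter.unusedSectionVars false

namespace Pool.Agent.Results.MP_e806f7_co.DenseRange

open Finset Pool.Agent.H521_col
open scoped Nat

/-- number of edges of the Turán graph with `n` vertices and `r` classes -/
noncomputable def turanNum (n r : ℕ) : ℕ := Nat.card (SimpleGraph.turanGraph n r).edgeSet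

/-- the set of all numbers of proper `q`-colourings of graphs with vertex set `Fin n` and exactly
`m` edges -/
def colCounts (n m q : ℕ) : Set ℕ :=
  {p | ∃ G : SimpleGraph (Fin n), Nat.card G.edgeSet = m ∧ Nat.card (G.Coloring (Fin q)) = p}

theorem upper {n m q t : ℕ} (hq : 2 ≤ q)
    (ht : IsGreatest {s | (q - 1) * s ≤ n ∧ m + n * s ≤ turanNum (n + s) q} t)
    (hbig : (q - 1) * (t + 1) < n)
    {G : SimpleGraph (Fin n)} (hG : Nat.card G.edgeSet = m) :
    Nat.card (G.Coloring (Fin q)) ≤ q ! * 2 ^ t := by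
  have : NeZero q := ⟨by omega⟩
  by_contra hcon
  push Not at hcon
  rw [card_coloring_univ] at hcon
  have h2 := dense_upper (G := G) (α := Fin q) (by rw [Fintype.card_fin]; omega) n univ (by simp)
    (t + 1) (by
      rw [Fintype.card_fin, pow_succ, ← mul_assoc]
      omega)
  rw [← card_edges_univ, hG, card_univ, Fintype.card_fin, Fintype.card_fin] at h2
  have h3 : t + 1 ∈ {s | (q - 1) * s ≤ n ∧ m + n * s ≤ turanNum (n + s) q} := by
    refine ⟨hbig.le, ?_⟩
    have h4 : turanNum (n + (t + 1)) q = tur (n + (t + 1)) q := rfl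
    rw [h4]
    omega
  have := ht.2 h3
  omega

theorem lower {n m q t : ℕ} (hq : 2 ≤ q) (hbig : q * t + q ≤ n + t)
    (hmt : m + n * t ≤ tur (n + t) q) :
    ∃ G : SimpleGraph (Fin n), Nat.card G.edgeSet = m ∧
      q ! * 2 ^ t ≤ Nat.card (G.Coloring (Fin q)) := by
  have : NeZero q := ⟨by omega⟩
  have hlow := col_extG (n := n) (q := q) (t := t) hq hbig
  have he := e2_keep (n := n) (q := q) (t := t) hq (by omega)
  have hk := card_keep (n := n) (q := q) (t := t) hq (by omega)
  rw [← card_coloring_induce] at hlow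
  rw [← card_edges_induce] at he
  have hm2 : m ≤ Nat.card ((extG (n + t) q t).comap
      (fun x : keep (n + t) q t => (x : Fin (n + t)))).edgeSet := by
    omega
  obtain ⟨G1, hG1, hG1'⟩ := exists_fewer _ (Fin q) hm2
  obtain ⟨G2, hG2, hG2'⟩ := exists_fin G1 (Fin q) (n := n) (by
    rw [Fintype.card_coe]
    exact hk)
  refine ⟨G2, hG2.trans hG1, ?_⟩
  rw [hG2']
  exact hlow.trans hG1'

/-- For `q ≥ 2` and every `m` with `turanNum n (q - 1) < m ≤ turanNum n q`, the maximum number of
proper `q`-colourings of a graph with `n` vertices and `m` edges is `q ! * 2 ^ t`, where `t` is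
the greatest integer with `(q - 1) * t ≤ n` and `m + n * t ≤ turanNum (n + t) q`. -/
theorem result (n m q : ℕ) (hq : 2 ≤ q) (h1 : turanNum n (q - 1) < m) (h2 : m ≤ turanNum n q) :
    ∃ t, IsGreatest {s | (q - 1) * s ≤ n ∧ m + n * s ≤ turanNum (n + s) q} t ∧
      IsGreatest (colCounts n m q) (q ! * 2 ^ t) := by
  have hex : ∃ t, IsGreatest {s | (q - 1) * s ≤ n ∧ m + n * s ≤ turanNum (n + s) q} t := by
    have hfin : {s | (q - 1) * s ≤ n ∧ m + n * s ≤ turanNum (n + s) q}.Finite := by
      apply Set.Finite.subset (Set.finite_Iic n)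
      intro s hs
      have h3 : s ≤ (q - 1) * s := Nat.le_mul_of_pos_left s (by omega)
      exact h3.trans hs.1
    obtain ⟨t, ht1, ht2⟩ := Set.exists_max_image _ id hfin ⟨0, by simp, by simpa using h2⟩
    exact ⟨t, ht1, fun s hs => ht2 s hs⟩
  obtain ⟨t, ht⟩ := hex
  refine ⟨t, ht, ?_⟩
  have hm1 : (q - 1) * t ≤ n := ht.1.1
  have hm2 : m + n * t ≤ tur (n + t) q := ht.1.2
  have h1' : tur n (q - 1) < m := h1
  have hbig : (q - 1) * (t + 1) < n := by
    by_contra hcon
    push Not at hcon
    have h3 := tur_join' hm1 hcon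
    have h4 : q - 1 + 1 = q := by omega
    rw [h4] at h3
    rw [h3] at hm2
    omega
  have hc : q * t + q ≤ n + t := by
    obtain ⟨p, hp⟩ : ∃ p, q = p + 1 := ⟨q - 1, by omega⟩
    have h5 : q - 1 = p := by omega
    rw [h5] at hbig
    have : q * t + q = p * (t + 1) + 1 + t := by
      rw [hp]
      ring
    rw [this]
    omega
  constructor
  · obtain ⟨G, hG1, hG2⟩ := lower hq hc hm2
    exact ⟨G, hG1, le_antisymm (upper hq ht hbig hG1) hG2⟩
  · rintro x ⟨G, hG, rfl⟩
    exact upper hq ht hbig hG

end Pool.Agent.Results.MP_e806f7_co.DenseRange
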