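import Pool.Agent.H521_col.Assemble
import Pool.Agent.H521_col.Lower3

/-!
MP_e806f7_co: the maximum number of proper colourings with three colours of a graph with `n`
vertices and `m` edges, for all `n` and all `m` with `1 ≤ m ≤ n ^ 2 / 4`.
-/

set_option linter.unusedSectionVars false

namespace Pool.Agent.Results.MP_e806f7_co.ThreeColours

open Finset Pool.Agent.H521_col

/-- the set of all numbers of proper three-colourings of graphs with vertex set `Fin n` and exactly
`m` edges -/
def colCounts3 (n m : ℕ) : Set ℕ :=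
  {p | ∃ G : SimpleGraph (Fin n), Nat.card G.edgeSet = m ∧ Nat.card (G.Coloring (Fin 3)) = p}

/-- the numbers `3 ^ (n - a - b) * (3 * 2 ^ a + 3 * 2 ^ b + 6 * 2 ^ k - 12)` for all `a, b, k` with
`1 ≤ b ≤ a`, `a + b ≤ n`, `a * b = m + k`, `k ≤ a - b`, and `k = 0` if `b = 1`; this is the number
of proper three-colourings of the complete bipartite graph with sides of sizes `a` and `b`, minus
`k` edges at one vertex of the side of size `b`, plus `n - a - b` isolated vertices. -/
def candidates (n m : ℕ) : Set ℕ :=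
  {p | ∃ a b k : ℕ, 1 ≤ b ∧ b ≤ a ∧ a + b ≤ n ∧ a * b = m + k ∧ k + b ≤ a ∧ (b = 1 → k = 0) ∧
    p = 3 ^ (n - a - b) * (3 * 2 ^ a + 3 * 2 ^ b + 6 * 2 ^ k - 12)}

theorem upper {n m : ℕ} (hm : 1 ≤ m) (hn : 4 * m ≤ n ^ 2) {G : SimpleGraph (Fin n)}
    (hG : Nat.card G.edgeSet = m) :
    ∃ p ∈ candidates n m, Nat.card (G.Coloring (Fin 3)) ≤ p := by
  have he := card_edges_univ G
  obtain ⟨a, b, k, ⟨h1, h2, h3, h4, h5, h6⟩, hle⟩ := upper_all (V := Fin n) n G univ (by simp) m hm
    (by rw [← pow_two]; exact hn) (by omega)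
  refine ⟨_, ⟨a, b, k, h1, h2, h3, h4, h5, h6, rfl⟩, ?_⟩
  rw [card_coloring_univ]
  have h7 : 12 ≤ H521_col.val a b k := by
    unfold H521_col.val
    have := two_le_two_pow (n := a) (by omega)
    have := two_le_two_pow h1
    have := one_le_two_pow' k
    omega
  have h8 : 3 ^ (n - a - b) * (H521_col.val a b k - 12) + 12 * 3 ^ (n - a - b) =
      3 ^ (n - a - b) * H521_col.val a b k := by
    obtain ⟨x, hx⟩ := Nat.exists_eq_add_of_le h7
    rw [hx, Nat.add_sub_cancel_left]
    ring
  have h9 : P G univ = (Col (Fin 3) G univ).card := rfl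
  have h10 : H521_col.val a b k - 12 = 3 * 2 ^ a + 3 * 2 ^ b + 6 * 2 ^ k - 12 := rfl
  rw [← h10]
  omega

theorem lower {n m p : ℕ} (hp : p ∈ candidates n m) :
    ∃ G : SimpleGraph (Fin n), Nat.card G.edgeSet = m ∧ p ≤ Nat.card (G.Coloring (Fin 3)) := by
  classical
  obtain ⟨a, b, k, h1, h2, h3, h4, h5, h6, rfl⟩ := hp
  obtain ⟨A, -, hA⟩ := exists_subset_card_eq (s := (univ : Finset (Fin n))) (n := a) (by
    rw [card_univ, Fintype.card_fin]
    omega)
  obtain ⟨B, hBA, hB⟩ := exists_subset_card_eq (s := univ \ A) (n := b) (by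
    rw [card_sdiff_of_subset (subset_univ _), card_univ, Fintype.card_fin]
    omega)
  obtain ⟨E, hE, hEk⟩ := exists_subset_card_eq (s := A) (n := k) (by omega)
  obtain ⟨y, hy⟩ : B.Nonempty := by
    rw [← card_pos]
    omega
  have hAB : Disjoint A B := by
    rw [disjoint_left]
    intro v hv hv'
    exact (mem_sdiff.1 (hBA hv')).2 hv
  set R : Finset (Fin n) := univ \ (A ∪ B) with hR
  have hdis : Disjoint (A ∪ B) R := disjoint_sdiff
  have huniv : (A ∪ B) ∪ R = univ := by
    rw [hR, union_sdiff_of_subset (subset_univ _)]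
  have hiso : ∀ w ∈ R, ∀ u, ¬ (starG A B E y).Adj w u := by
    intro w hw u hwu
    rw [hR, mem_sdiff, mem_union, not_or] at hw
    rw [starG_adj] at hwu
    rcases hwu.2 with h | h
    · exact hw.2.1 h.1
    · exact hw.2.2 h.2.1
  have hRc : R.card = n - a - b := by
    rw [hR, card_sdiff_of_subset (subset_univ _), card_union_of_disjoint hAB, card_univ,
      Fintype.card_fin, hA, hB]
    omega
  refine ⟨starG A B E y, ?_, ?_⟩
  · have e1 := card_edges_univ (starG A B E y)
    have e3 := starG_e2 (y := y) hAB hy hE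
    rw [← huniv, e2_isolated hdis hiso] at e1
    rw [hA, hB, hEk, h4] at e3
    omega
  · rw [card_coloring_univ, ← huniv]
    have c1 := col_isolated_many R hdis hiso
    have c2 := starG_count (y := y) hAB hy hE (by omega) (by
      rcases Nat.eq_or_lt_of_le h1 with h | h
      · right
        have := h6 h.symm
        rw [← card_eq_zero]
        omega
      · left
        omega)
    rw [hA, hB, hEk] at c2
    rw [hRc] at c1
    refine le_trans (Nat.mul_le_mul_left _ ?_) c1
    omega

/-- For all `n` and all `m` with `1 ≤ m` and `4 * m ≤ n ^ 2`, the maximum number of proper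
three-colourings of a graph with `n` vertices and `m` edges is the largest element of
`candidates n m`. -/
theorem result (n m : ℕ) (hm : 1 ≤ m) (hn : 4 * m ≤ n ^ 2) :
    ∃ v, IsGreatest (candidates n m) v ∧ IsGreatest (colCounts3 n m) v := by
  classical
  -- there is a graph
  have hne : (candidates n m).Nonempty := by
    obtain ⟨a, b, k, hb, hs, hk, he⟩ := canonical hm (by rw [← pow_two]; exact hn)
    rcases Nat.eq_or_lt_of_le hb with h | h
    · rw [← h] at he hs
      exact ⟨_, m, 1, 0, le_refl _, hm, by omega, by omega, by omega, fun _ => rfl, rfl⟩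
    · exact ⟨_, a, b, k, hb, by omega, by omega, by omega, hk, by omega, rfl⟩
  have hfin : (candidates n m).Finite := by
    apply Set.Finite.subset (Set.finite_Iic (3 ^ n * (3 * 2 ^ n + 3 * 2 ^ n + 6 * 2 ^ n)))
    rintro p ⟨a, b, k, h1, h2, h3, h4, h5, h6, rfl⟩
    rw [Set.mem_Iic]
    have a1 : 2 ^ a ≤ 2 ^ n := Nat.pow_le_pow_right (by norm_num) (by omega)
    have a2 : 2 ^ b ≤ 2 ^ n := Nat.pow_le_pow_right (by norm_num) (by omega)
    have a3 : 2 ^ k ≤ 2 ^ n := Nat.pow_le_pow_right (by norm_num) (by omega)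
    have a4 : 3 ^ (n - a - b) ≤ 3 ^ n := Nat.pow_le_pow_right (by norm_num) (by omega)
    apply Nat.mul_le_mul a4
    omega
  obtain ⟨v, hv, hmax⟩ := Set.exists_max_image (candidates n m) id hfin hne
  refine ⟨v, ⟨hv, fun p hp => hmax p hp⟩, ?_, ?_⟩
  · obtain ⟨G, hG, hle⟩ := lower hv
    refine ⟨G, hG, le_antisymm ?_ hle⟩
    obtain ⟨p, hp, hle'⟩ := upper hm hn hG
    exact hle'.trans (hmax p hp)
  · rintro x ⟨G, hG, rfl⟩
    obtain ⟨p, hp, hle'⟩ := upper hm hn hG
    exact hle'.trans (hmax p hp)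

end Pool.Agent.Results.MP_e806f7_co.ThreeColours
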