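import Pool.Agent.H521_col.Tw4
import Pool.Agent.H521_col.Tur

/-!
MP_e806f7_co: the maximum number of proper `q`-colourings of a graph with `n` vertices and `m`
edges is attained, up to the factor `q ^ (2 * q / k)`, by a graph with at most `(2 * k + 3) * q`
different neighbourhoods.
-/

set_option linter.unusedSectionVars false

namespace Pool.Agent.Results.MP_e806f7_co.TwinClasses

open Finset Pool.Agent.H521_col

/-- the number of edges of the Turan graph with `n` vertices and `r` classes -/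
noncomputable def turanNum (n r : ℕ) : ℕ := Nat.card (SimpleGraph.turanGraph n r).edgeSet

/-- the set of all numbers of proper `q`-colourings of graphs with vertex set `Fin n` and exactly
`m` edges -/
def colCounts (n m q : ℕ) : Set ℕ :=
  {p | ∃ G : SimpleGraph (Fin n), Nat.card G.edgeSet = m ∧ Nat.card (G.Coloring (Fin q)) = p}

/-- the set of all numbers of proper `q`-colourings of graphs with vertex set `Fin n`, at least `m`
edges and at most `K` different neighbourhoods -/
def fewNeighbourhoods (n m q K : ℕ) : Set ℕ :=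
  {p | ∃ G : SimpleGraph (Fin n), m ≤ Nat.card G.edgeSet ∧
    Nat.card (Set.range G.neighborSet) ≤ K ∧ Nat.card (G.Coloring (Fin q)) = p}

theorem card_nbhd {n : ℕ} (G : SimpleGraph (Fin n)) (φ : Fin n → Fin n) :
    Nat.card (Set.range (G.comap φ).neighborSet) ≤ (univ.image φ).card := by
  have h1 : Set.range (G.comap φ).neighborSet ⊆
      (((univ.image φ).image (fun x => {w | G.Adj x (φ w)}) : Finset (Set (Fin n))) :
        Set (Set (Fin n))) := by
    rintro _ ⟨v, rfl⟩
    rw [mem_coe, mem_image]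
    exact ⟨φ v, mem_image_of_mem _ (mem_univ v), rfl⟩
  have h2 := Nat.card_mono (Set.toFinite _) h1
  refine h2.trans ?_
  rw [Nat.card_eq_card_toFinset]
  simp only [toFinset_coe]
  exact card_image_le

theorem main {n m q k : ℕ} (hq : 1 ≤ q) (hk : 1 ≤ k) {G : SimpleGraph (Fin n)}
    (hG : Nat.card G.edgeSet = m) (h0 : 0 < Nat.card (G.Coloring (Fin q))) :
    ∃ w ∈ fewNeighbourhoods n m q ((2 * k + 3) * q),
      Nat.card (G.Coloring (Fin q)) ^ k ≤ q ^ (2 * q) * w ^ k := by
  classical
  have : NeZero q := ⟨by omega⟩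
  rw [card_coloring_univ] at h0 ⊢
  obtain ⟨c0, hc0⟩ := card_pos.1 h0
  have hc0' : ∀ u v, G.Adj u v → c0 u ≠ c0 v := fun u v huv =>
    (mem_Col.1 hc0).2 u (mem_univ u) v (mem_univ v) huv
  obtain ⟨φ, h1, h2, h3⟩ := Tw.tw_final (Fin q) hc0' hk
  rw [Fintype.card_fin] at h1 h3
  refine ⟨_, ⟨G.comap φ, ?_, (card_nbhd G φ).trans h1, rfl⟩, ?_⟩
  · have e1 := card_edges_univ G
    have e2 := card_edges_univ (G.comap φ)
    omega
  · rw [card_coloring_univ]
    exact h3

/-- Let `q, k ≥ 1` and `m ≤ turanNum n q`. Let `v` be the maximum number of proper `q`-colourings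
of a graph with `n` vertices and `m` edges, and `w` the maximum number of proper `q`-colourings of
a graph with `n` vertices, at least `m` edges and at most `(2 * k + 3) * q` different
neighbourhoods. Both maxima exist, `w ≤ v` and `v ^ k ≤ q ^ (2 * q) * w ^ k`. -/
theorem result (q k n m : ℕ) (hq : 1 ≤ q) (hk : 1 ≤ k) (hm : m ≤ turanNum n q) :
    ∃ v w, IsGreatest (colCounts n m q) v ∧
      IsGreatest (fewNeighbourhoods n m q ((2 * k + 3) * q)) w ∧
      w ≤ v ∧ v ^ k ≤ q ^ (2 * q) * w ^ k := by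
  classical
  have : NeZero q := ⟨by omega⟩
  have hcard : ∀ G : SimpleGraph (Fin n), Nat.card (G.Coloring (Fin q)) ≤ q ^ n := by
    intro G
    rw [card_coloring_univ]
    refine (card_le_univ _).trans ?_
    simp
  have hb1 : BddAbove (colCounts n m q) := ⟨q ^ n, by
    rintro p ⟨G, _, rfl⟩
    exact hcard G⟩
  have hb2 : BddAbove (fewNeighbourhoods n m q ((2 * k + 3) * q)) := ⟨q ^ n, by
    rintro p ⟨G, _, _, rfl⟩
    exact hcard G⟩
  -- a colourable graph with `m` edges
  obtain ⟨G0, hG0, hG0'⟩ := exists_fewer (SimpleGraph.turanGraph n q) (Fin q) hm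
  have hpos : 0 < Nat.card (G0.Coloring (Fin q)) := by
    refine lt_of_lt_of_le ?_ hG0'
    have hc : Nonempty ((SimpleGraph.turanGraph n q).Coloring (Fin q)) := by
      refine ⟨SimpleGraph.Coloring.mk (fun v => ⟨v % q, Nat.mod_lt _ (by omega)⟩) ?_⟩
      intro u v huv h
      rw [SimpleGraph.turanGraph_adj] at huv
      apply huv
      simpa using h
    rw [card_coloring_univ, card_pos]
    rw [← card_pos, ← card_coloring_univ]
    have : Finite ((SimpleGraph.turanGraph n q).Coloring (Fin q)) :=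
      Finite.of_injective (fun c => (fun v => c v : Fin n → Fin q)) (fun c d h => by
        ext v
        exact congrArg Fin.val (congrFun h v))
    exact Nat.card_pos
  have hne1 : (colCounts n m q).Nonempty := ⟨_, G0, hG0, rfl⟩
  obtain ⟨w0, hw0, _⟩ := main hq hk hG0 hpos
  have hne2 : (fewNeighbourhoods n m q ((2 * k + 3) * q)).Nonempty := ⟨w0, hw0⟩
  refine ⟨sSup (colCounts n m q), sSup (fewNeighbourhoods n m q ((2 * k + 3) * q)),
    ⟨Nat.sSup_mem hne1 hb1, fun p hp => le_csSup hb1 hp⟩,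
    ⟨Nat.sSup_mem hne2 hb2, fun p hp => le_csSup hb2 hp⟩, ?_, ?_⟩
  · obtain ⟨H, hH1, _, hH3⟩ := Nat.sSup_mem hne2 hb2
    obtain ⟨G, hG1, hG2⟩ := exists_fewer H (Fin q) hH1
    rw [← hH3]
    exact hG2.trans (le_csSup hb1 ⟨G, hG1, rfl⟩)
  · obtain ⟨G, hG1, hG2⟩ := Nat.sSup_mem hne1 hb1
    have hp : 0 < Nat.card (G.Coloring (Fin q)) := by
      rw [hG2]
      exact lt_of_lt_of_le hpos (le_csSup hb1 ⟨G0, hG0, rfl⟩)
    obtain ⟨w, hw, hle⟩ := main hq hk hG1 hp
    rw [← hG2]
    refine hle.trans (Nat.mul_le_mul_left _ ?_)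
    exact Nat.pow_le_pow_left (le_csSup hb2 hw) k

end Pool.Agent.Results.MP_e806f7_co.TwinClasses
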