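import Pool.Agent.H521_col.Sym3
import Pool.Agent.H521_col.Main5
import Pool.Agent.H521_col.Low5

/-!
MP_e806f7_co: the maximum number of proper `q`-colourings of a graph with `n` vertices and `m`
edges, up to a factor depending only on `q`, for all `q`, `n` and `m`.
-/

set_option linter.unusedSectionVars false

namespace Pool.Agent.Results.MP_e806f7_co.UpToConstant

open Finset Pool.Agent.H521_col

/-- the set of all numbers of proper `q`-colourings of graphs with vertex set `Fin n` and exactly
`m` edges -/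
def colCounts (n m q : ℕ) : Set ℕ :=
  {p | ∃ G : SimpleGraph (Fin n), Nat.card G.edgeSet = m ∧ Nat.card (G.Coloring (Fin q)) = p}

/-- all numbers `s₁ ^ a₁ * ... * s_q ^ a_q * (s_i + s_j) ^ b` with two different indices `i`, `j`,
where `s₁ + ... + s_q = q`, `a₁ + ... + a_q + b = n`, and the sum of all `a_k * a_l` with `k < l`
plus `b` times the sum of all `a_k` with `k` different from `i` and `j` is at least `m` -/
def values (n m q : ℕ) : Set ℕ :=
  {w | ∃ (s a : Fin q → ℕ) (i j : Fin q) (b : ℕ), i ≠ j ∧ ∑ k, s k = q ∧ ∑ k, a k + b = n ∧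
    m ≤ (∑ k, ∑ l, if k < l then a k * a l else 0) +
      b * (∑ k, if k = i ∨ k = j then 0 else a k) ∧
    w = (∏ k, s k ^ a k) * (s i + s j) ^ b}

/-- the largest of these numbers (`0` if there are none) -/
noncomputable def maxValue (n m q : ℕ) : ℕ := sSup (values n m q)

theorem ed_pair {q : ℕ} (a : Fin q → ℕ) {i j : Fin q} (b : ℕ) :
    Opt.ed a {i, j} b = (∑ k, ∑ l, if k < l then a k * a l else 0) +
      b * (∑ k, if k = i ∨ k = j then 0 else a k) := by
  unfold Opt.ed Opt.pe
  congr 2
  rw [← sum_subset (subset_univ ({i, j} : Finset (Fin q))ᶜ)]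
  · apply sum_congr rfl
    intro k hk
    rw [mem_compl, mem_insert, mem_singleton] at hk
    rw [if_neg hk]
  · intro k _ hk
    rw [mem_compl, not_not, mem_insert, mem_singleton] at hk
    rw [if_pos hk]

theorem vl_pair {q : ℕ} (s a : Fin q → ℕ) {i j : Fin q} (hij : i ≠ j) (b : ℕ) :
    Opt.vl s a {i, j} b = (∏ k, s k ^ a k) * (s i + s j) ^ b := by
  unfold Opt.vl
  rw [sum_pair hij]

theorem values_bdd (n m q : ℕ) : BddAbove (values n m q) := by
  refine ⟨q ^ n, ?_⟩
  rintro w ⟨s, a, i, j, b, hij, hs, hab, _, rfl⟩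
  rw [← sum_pair (f := s) hij]
  calc (∏ k, s k ^ a k) * (∑ k ∈ {i, j}, s k) ^ b ≤ (∏ k, q ^ a k) * q ^ b := by
        apply Nat.mul_le_mul
        · exact prod_le_prod' (fun k _ => Nat.pow_le_pow_left (Opt.le_q hs k) _)
        · exact Nat.pow_le_pow_left (Opt.sumJ_le_q hs _) _
    _ = q ^ n := by
        rw [prod_pow_eq_pow_sum, ← pow_add, hab]

theorem const_le {q : ℕ} (hq : 1 ≤ q) :
    q ^ q * 4 ^ (q ^ 2) * (3 * q ^ (q + 1) * (q ^ 4) ^ ((q + 1) ^ 2)) ≤
      (q + 1) ^ (7 * (q + 1) ^ 2) := by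
  have h1 : q ^ q ≤ (q + 1) ^ q := Nat.pow_le_pow_left (by omega) _
  have h2 : 4 ^ (q ^ 2) ≤ (q + 1) ^ (2 * q ^ 2) := by
    rw [pow_mul]
    apply Nat.pow_le_pow_left
    nlinarith
  have h3 : 3 ≤ (q + 1) ^ 2 := by nlinarith
  have h4 : q ^ (q + 1) ≤ (q + 1) ^ (q + 1) := Nat.pow_le_pow_left (by omega) _
  have h5 : (q ^ 4) ^ ((q + 1) ^ 2) ≤ (q + 1) ^ (4 * (q + 1) ^ 2) := by
    rw [pow_mul]
    apply Nat.pow_le_pow_left
    exact Nat.pow_le_pow_left (by omega) _
  calc q ^ q * 4 ^ (q ^ 2) * (3 * q ^ (q + 1) * (q ^ 4) ^ ((q + 1) ^ 2))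
      ≤ (q + 1) ^ q * (q + 1) ^ (2 * q ^ 2) *
        ((q + 1) ^ 2 * (q + 1) ^ (q + 1) * (q + 1) ^ (4 * (q + 1) ^ 2)) :=
        Nat.mul_le_mul (Nat.mul_le_mul h1 h2) (Nat.mul_le_mul (Nat.mul_le_mul h3 h4) h5)
    _ = (q + 1) ^ (q + 2 * q ^ 2 + (2 + (q + 1) + 4 * (q + 1) ^ 2)) := by
        rw [← pow_add, ← pow_add, ← pow_add, ← pow_add]
    _ ≤ (q + 1) ^ (7 * (q + 1) ^ 2) := by
        apply Nat.pow_le_pow_right (by omega)
        nlinarith

theorem lower {n m q w : ℕ} (hw : w ∈ values n m q) :
    ∃ G : SimpleGraph (Fin n), Nat.card G.edgeSet = m ∧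
      w ≤ Nat.card (G.Coloring (Fin q)) := by
  obtain ⟨s, a, i, j, b, hij, hs, hab, hm, rfl⟩ := hw
  rw [← vl_pair s a hij b]
  rw [← ed_pair] at hm
  exact Opt.sol_lower hs hab hm

open scoped Classical in
theorem upper {n m q : ℕ} (hq2 : 2 ≤ q) {G : SimpleGraph (Fin n)} (hG : Nat.card G.edgeSet = m) :
    Nat.card (G.Coloring (Fin q)) ≤ (q + 1) ^ (7 * (q + 1) ^ 2) * maxValue n m q := by
  have hq : 1 ≤ q := by omega
  have : NeZero q := ⟨by omega⟩
  rw [card_coloring_univ]
  rcases (Col (Fin q) G univ).eq_empty_or_nonempty with h0 | ⟨c0, hc0⟩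
  · rw [h0, card_empty]
    exact Nat.zero_le _
  have he : e2 G univ = 2 * m := by rw [← hG, card_edges_univ]
  -- the sizes of the colour classes
  set t : Fin q → ℕ := fun i => (univ.filter (fun v => c0 v = i)).card with ht
  have htsum : ∑ i, t i = n := by
    have h1 := card_eq_sum_card_fiberwise (f := c0) (s := (univ : Finset (Fin n)))
      (t := (univ : Finset (Fin q))) (fun v _ => mem_univ _)
    rw [card_univ, Fintype.card_fin] at h1
    exact h1.symm
  have htm : m ≤ Opt.pe t := by
    have h1 := Opt.two_pe t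
    rw [htsum] at h1
    have h2 : e2 G univ + ∑ i, t i ^ 2 ≤ n ^ 2 := by
      have h3 : e2 G univ = ((univ : Finset (Fin n × Fin n)).filter
          (fun p => G.Adj p.1 p.2)).card := by
        rw [e2, card_filter, ← univ_product_univ, sum_product]
        apply sum_congr rfl
        intro u _
        rw [dg_eq_sum]
      have h4 : ∑ i, t i ^ 2 = ((univ : Finset (Fin n × Fin n)).filter
          (fun p => c0 p.1 = c0 p.2)).card := by
        rw [card_filter, ← univ_product_univ, sum_product]
        have h5 : ∀ u : Fin n, ∑ v : Fin n, (if c0 u = c0 v then 1 else 0) = t (c0 u) := by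
          intro u
          rw [← card_filter]
          simp only [t]
          congr 1
          ext v
          simp only [mem_filter, mem_univ, true_and]
          exact eq_comm
        rw [sum_congr rfl (fun u _ => h5 u)]
        have h6 := sum_comp (s := (univ : Finset (Fin n))) (f := t) c0
        rw [h6]
        have h7 : ∀ b, (univ.filter (fun a => c0 a = b)).card • t b = t b ^ 2 := by
          intro b
          rw [smul_eq_mul, sq]
        rw [sum_congr rfl (fun b _ => h7 b)]
        symm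
        apply sum_subset (subset_univ _)
        intro b _ hb
        have h8 : t b = 0 := by
          simp only [t]
          rw [card_eq_zero, filter_eq_empty_iff]
          intro v _ hv
          exact hb (mem_image.2 ⟨v, mem_univ v, hv⟩)
        rw [h8]
        norm_num
      have h5 : Disjoint ((univ : Finset (Fin n × Fin n)).filter (fun p => G.Adj p.1 p.2))
          ((univ : Finset (Fin n × Fin n)).filter (fun p => c0 p.1 = c0 p.2)) := by
        rw [disjoint_left]
        intro p hp hp'
        rw [mem_filter] at hp hp'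
        exact (mem_Col.1 hc0).2 p.1 (mem_univ _) p.2 (mem_univ _) hp.2 hp'.2
      rw [h3, h4, ← card_union_of_disjoint h5]
      refine (card_le_univ _).trans ?_
      rw [Fintype.card_prod, Fintype.card_fin, sq]
    omega
  have hF : ∀ L : Fin n → Finset (Fin q),
      e2 G univ ≤ ((univ : Finset (Fin n × Fin n)).filter
        (fun p => Disjoint (L p.1) (L p.2))).card →
      ∏ v, (L v).card ≤ (3 * q ^ (q + 1) * (q ^ 4) ^ ((q + 1) ^ 2)) * maxValue n m q := by
    intro L hL
    by_cases hne : ∀ v, (L v).Nonempty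
    · rw [he] at hL
      obtain ⟨s, a, J, b, hJ, hs, hab, hed, hle⟩ := Opt.lab_to_struct hq (Fintype.card_fin n) L
        hne hL htsum htm
      refine hle.trans (Nat.mul_le_mul_left _ ?_)
      rcases hJ with rfl | hJ
      · -- no vertex with the union label
        have hij : (⟨0, by omega⟩ : Fin q) ≠ ⟨1, by omega⟩ := by
          intro h
          simp at h
        apply le_csSup (values_bdd n m q)
        refine ⟨s, a, ⟨0, by omega⟩, ⟨1, by omega⟩, 0, hij, hs, hab, ?_, ?_⟩
        · unfold Opt.ed Opt.pe at hed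
          rw [zero_mul] at hed ⊢
          exact hed
        · unfold Opt.vl
          rw [pow_zero, pow_zero]
      · obtain ⟨i, j, hij, rfl⟩ := card_eq_two.1 hJ
        apply le_csSup (values_bdd n m q)
        refine ⟨s, a, i, j, b, hij, hs, hab, ?_, vl_pair s a hij b⟩
        rw [← ed_pair]
        exact hed
    · push Not at hne
      obtain ⟨v, hv⟩ := hne
      have : ∏ v, (L v).card = 0 := prod_eq_zero (mem_univ v) (by rw [hv, card_empty])
      rw [this]
      exact Nat.zero_le _
  have h1 := Sym.sym_bound (Fin q) hF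
  rw [Fintype.card_fin] at h1
  refine h1.trans ?_
  rw [← mul_assoc]
  exact Nat.mul_le_mul_right _ (const_le hq)

/-- For all `q ≥ 2`, `n` and `m`, the maximum number `v` of proper `q`-colourings of a graph with
`n` vertices and `m` edges satisfies
`maxValue n m q ≤ v ≤ (q + 1) ^ (7 * (q + 1) ^ 2) * maxValue n m q`. -/
theorem result (q n m : ℕ) (hq : 2 ≤ q) (hm : m ≤ n.choose 2) :
    ∃ v, IsGreatest (colCounts n m q) v ∧ maxValue n m q ≤ v ∧
      v ≤ (q + 1) ^ (7 * (q + 1) ^ 2) * maxValue n m q := by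
  have hne : (colCounts n m q).Nonempty := by
    have h1 : m ≤ Nat.card (⊤ : SimpleGraph (Fin n)).edgeSet := by
      classical
      rw [Nat.card_eq_fintype_card, ← SimpleGraph.edgeFinset_card,
        SimpleGraph.card_edgeFinset_top_eq_card_choose_two, Fintype.card_fin]
      exact hm
    obtain ⟨G, hG, _⟩ := exists_fewer (⊤ : SimpleGraph (Fin n)) (Fin q) h1
    exact ⟨_, G, hG, rfl⟩
  have hbdd : BddAbove (colCounts n m q) :=
    ⟨(q + 1) ^ (7 * (q + 1) ^ 2) * maxValue n m q, by
      rintro p ⟨G, hG, rfl⟩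
      exact upper hq hG⟩
  refine ⟨sSup (colCounts n m q), ⟨Nat.sSup_mem hne hbdd, fun p hp => le_csSup hbdd hp⟩, ?_, ?_⟩
  · rcases (values n m q).eq_empty_or_nonempty with h | h
    · unfold maxValue
      rw [h]
      simp
    · obtain ⟨G, hG, hle⟩ := lower (Nat.sSup_mem h (values_bdd n m q))
      exact hle.trans (le_csSup hbdd ⟨G, hG, rfl⟩)
  · obtain ⟨G, hG, hGv⟩ := Nat.sSup_mem hne hbdd
    rw [← hGv]
    exact upper hq hG

end Pool.Agent.Results.MP_e806f7_co.UpToConstant
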